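import Pool.Agent.W425.IM.Stm
import Pool.Agent.W21.MTSub
import Pool.Agent.W417.MT.Free

/-!
# Project IM, part LIN: independent linear conditions
-/

set_option autoImplicit false

namespace Pool.Agent.W428.IM

open Pool.Agent.W428.MOT

variable {K : Type} [Field K] {R : Type} [CommRing R]

theorem chi_empty (M : Meas K R) {ι : Type} [Fintype ι] :
    M.χ ι (∅ : Set (Pt K ι)) = 0 := by
  have h := M.add (ι := ι) ∅ ∅ Constr.empty Constr.empty (Set.disjoint_empty _)
  rw [Set.union_empty] at h
  simpa using h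

/-- the common hypotheses -/
def Hyp {ι : Type} (D : Finset ι) (p : ℕ) (S : Set (Pt K ι))
    (F : Fin p → Pt K ι → AlgebraicClosure K) (A : Fin p → ι → Pt K ι → AlgebraicClosure K) :
    Prop :=
  Constr S ∧ (∀ i, IsPF (F i)) ∧ (∀ i d, IsPF (A i d)) ∧
    (∀ z z' : Pt K ι, (∀ i, i ∉ D → z' i = z i) →
      (z ∈ S → z' ∈ S) ∧ (∀ i d, A i d z' = A i d z) ∧
      ∀ i, F i z' = F i z + ∑ d ∈ D, A i d z * (z' d - z d)) ∧
    (∀ z ∈ S, ∀ x : Fin p → AlgebraicClosure K, (∀ d ∈ D, ∑ i, x i * A i d z = 0) → x = 0)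

theorem step (M : Meas K R) {ι : Type} [Fintype ι] [DecidableEq ι] (p : ℕ)
    (ih : ∀ (D : Finset ι) (S : Set (Pt K ι)) (F : Fin p → Pt K ι → AlgebraicClosure K)
      (A : Fin p → ι → Pt K ι → AlgebraicClosure K), Hyp D p S F A →
      M.χ ι (S ∩ {z | ∀ i, F i z = 0}) * M.L ^ p = M.χ ι S)
    (D : Finset ι) (S : Set (Pt K ι)) (F : Fin (p + 1) → Pt K ι → AlgebraicClosure K)
    (A : Fin (p + 1) → ι → Pt K ι → AlgebraicClosure K) (h : Hyp D (p + 1) S F A)
    (d : ι) (hd : d ∈ D) (hA0 : ∀ z ∈ S, A 0 d z ≠ 0) :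
    M.χ ι (S ∩ {z | ∀ i, F i z = 0}) * M.L ^ (p + 1) = M.χ ι S := by
  obtain ⟨hS, hF, hA, h1, h2⟩ := h
  let F' : Fin p → Pt K ι → AlgebraicClosure K := fun i z =>
    A 0 d z * F i.succ z - A i.succ d z * F 0 z
  let A' : Fin p → ι → Pt K ι → AlgebraicClosure K := fun i d' z =>
    A 0 d z * A i.succ d' z - A i.succ d z * A 0 d' z
  have hF' : ∀ i, IsPF (F' i) := fun i =>
    ((hA 0 d).mul (hF i.succ)).sub ((hA i.succ d).mul (hF 0))
  have hA' : ∀ i d', IsPF (A' i d') := fun i d' =>
    ((hA 0 d).mul (hA i.succ d')).sub ((hA i.succ d).mul (hA 0 d'))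
  have hD' : ∀ z z' : Pt K ι, (∀ i, i ∉ D.erase d → z' i = z i) → ∀ i, i ∉ D → z' i = z i :=
    fun z z' hz i hi => hz i fun hi' => hi (Finset.mem_of_mem_erase hi')
  -- the induction hypothesis
  have key : Hyp (D.erase d) p S F' A' := by
    refine ⟨hS, hF', hA', ?_, ?_⟩
    · intro z z' hz
      obtain ⟨h3, h4, h5⟩ := h1 z z' (hD' z z' hz)
      refine ⟨h3, fun i d' => ?_, fun i => ?_⟩
      · simp only [A', h4]
      · have e1 : ∀ i, ∑ d' ∈ D, A i d' z * (z' d' - z d') =
            ∑ d' ∈ D.erase d, A i d' z * (z' d' - z d') := by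
          intro i
          rw [← Finset.add_sum_erase D _ hd, hz d (Finset.notMem_erase _ _), sub_self, mul_zero,
            zero_add]
        simp only [F', A', h4, h5, e1]
        have e2 : ∑ d' ∈ D.erase d,
            (A 0 d z * A i.succ d' z - A i.succ d z * A 0 d' z) * (z' d' - z d') =
            A 0 d z * ∑ d' ∈ D.erase d, A i.succ d' z * (z' d' - z d') -
              A i.succ d z * ∑ d' ∈ D.erase d, A 0 d' z * (z' d' - z d') := by
          rw [Finset.mul_sum, Finset.mul_sum, ← Finset.sum_sub_distrib]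
          refine Finset.sum_congr rfl fun d' _ => ?_
          ring
        rw [e2]
        ring
    · intro z hz x hx
      have hX := h2 z hz (Fin.cons (-∑ i, x i * A i.succ d z) fun i => x i * A 0 d z) (by
        intro d' hd'
        rw [Fin.sum_univ_succ]
        simp only [Fin.cons_zero, Fin.cons_succ]
        have e3 : ∑ i, x i * A 0 d z * A (Fin.succ i) d' z +
            (-∑ i, x i * A i.succ d z) * A 0 d' z = ∑ i, x i * A' i d' z := by
          rw [neg_mul, Finset.sum_mul, ← sub_eq_add_neg, ← Finset.sum_sub_distrib]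
          refine Finset.sum_congr rfl fun i _ => ?_
          simp only [A']
          ring
        rw [add_comm, e3]
        by_cases hdd : d' = d
        · subst hdd
          refine Finset.sum_eq_zero fun i _ => ?_
          simp only [A']
          ring
        · exact hx d' (Finset.mem_erase.2 ⟨hdd, hd'⟩))
      funext i
      have h6 := congrFun hX i.succ
      simp only [Fin.cons_succ, Pi.zero_apply] at h6
      exact (mul_eq_zero.1 h6).resolve_right (hA0 z hz)
  have hC : Constr (S ∩ {z : Pt K ι | ∀ i, F' i z = 0}) :=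
    hS.inter (Constr.all fun i => Constr.eqz (hF' i))
  -- invariance in the direction `d`
  have hupd : ∀ (z : Pt K ι) (w : AlgebraicClosure K), ∀ i, i ∉ D →
      Function.update z d w i = z i := by
    intro z w i hi
    rw [Function.update_of_ne]
    rintro rfl
    exact hi hd
  have hFu : ∀ (z : Pt K ι) (w : AlgebraicClosure K) (i : Fin (p + 1)),
      F i (Function.update z d w) = F i z + A i d z * (w - z d) := by
    intro z w i
    rw [(h1 z _ (hupd z w)).2.2 i, Finset.sum_eq_single d, Function.update_self]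
    · intro d' _ hne
      rw [Function.update_of_ne hne, sub_self, mul_zero]
    · intro hd'
      exact absurd hd hd'
  have hAu : ∀ (z : Pt K ι) (w : AlgebraicClosure K) (i : Fin (p + 1)) (d' : ι),
      A i d' (Function.update z d w) = A i d' z := fun z w i d' =>
    (h1 z _ (hupd z w)).2.1 i d'
  have hSu : ∀ (z : Pt K ι) (w : AlgebraicClosure K), z ∈ S → Function.update z d w ∈ S :=
    fun z w => (h1 z _ (hupd z w)).1
  have hSu' : ∀ (z : Pt K ι) (w : AlgebraicClosure K), Function.update z d w ∈ S ↔ z ∈ S := by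
    intro z w
    refine ⟨fun hz => ?_, hSu z w⟩
    have := hSu _ (z d) hz
    rwa [Function.update_idem, Function.update_eq_self] at this
  have hFu' : ∀ (z : Pt K ι) (w : AlgebraicClosure K) (i : Fin p),
      F' i (Function.update z d w) = F' i z := by
    intro z w i
    simp only [F', hAu, hFu]
    ring
  -- the free coordinate `d`
  let T : Set (Pt K ι) := (S ∩ {z | ∀ i, F' i z = 0}) ∩ {z | ∀ i ∈ (∅ : Finset ι) ∪ {d},
    z i = algebraMap K _ ((fun _ => (0 : K)) i)}
  have hT : Constr T :=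
    hC.inter (Constr.ballFinset _ fun i _ => Constr.eq (IsPF.coord i) (IsPF.const _))
  have hTz : ∀ z : Pt K ι, z ∈ T ↔ (z ∈ S ∧ ∀ i, F' i z = 0) ∧ z d = 0 := by
    intro z
    simp only [T, Set.mem_inter_iff, Set.mem_ofPred_eq, Finset.empty_union, Finset.mem_singleton,
      forall_eq, map_zero]
  have hfree := Pool.Agent.W417.MT.Free.main M (S ∩ {z | ∀ i, F' i z = 0}) ∅ {d} (fun _ => 0)
    (Finset.disjoint_empty_left _) hC (by
      rintro z w hzw ⟨hz1, hz2⟩
      have hw : w = Function.update z d (w d) := by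
        funext i
        by_cases hi : i = d
        · subst hi
          rw [Function.update_self]
        · rw [Function.update_of_ne hi]
          exact hzw i (Finset.notMem_empty _) (by simpa using hi)
      rw [hw]
      exact ⟨hSu z _ hz1, fun i => (hFu' z _ i).trans (hz2 i)⟩)
  have hfree' : M.χ ι (S ∩ {z | ∀ i, F' i z = 0}) = M.χ ι T * M.L := by
    have e : (S ∩ {z : Pt K ι | ∀ i, F' i z = 0}) ∩ {z | ∀ i ∈ (∅ : Finset ι), z i ≠ 0} =
        S ∩ {z | ∀ i, F' i z = 0} := by
      ext z
      simp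
    rw [e] at hfree
    rw [hfree, Finset.card_empty, pow_zero, mul_one, Finset.card_singleton, pow_one]
  -- the substitution
  have hsub : M.χ ι (S ∩ {z | ∀ i, F i z = 0}) = M.χ ι T := by
    refine Pool.Agent.W21.MTSub.main M _ T d (A 0 d) (fun z => F 0 (Function.update z d 0))
      (hS.inter (Constr.all fun i => Constr.eqz (hF i))) hT (hA 0 d) ?_ ?_ ?_ ?_ ?_ ?_
    · refine (hF 0).comp (fun z => Function.update z d 0) fun j => ?_
      have := Pool.Agent.W417.MT.Free.pf_update (K := K) d 0 j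
      simpa only [map_zero] using this
    · intro z w
      exact hAu z w 0 d
    · intro z w
      rw [Function.update_idem]
    · intro z hz
      exact hA0 z hz.1
    · intro z hz
      exact hA0 z ((hTz z).1 hz).1.1
    · intro z hz
      have e1 : A 0 d z * z d + F 0 (Function.update z d 0) = F 0 z := by
        rw [hFu]
        ring
      change _ ↔ Function.update z d (A 0 d z * z d + F 0 (Function.update z d 0)) ∈ T
      rw [e1, hTz, hSu', Function.update_self]
      simp only [hFu']
      constructor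
      · rintro ⟨hz1, hz2⟩
        refine ⟨⟨hz1, fun i => ?_⟩, hz2 0⟩
        simp only [F', hz2 i.succ, hz2 0, mul_zero, sub_zero]
      · rintro ⟨⟨hz1, hz2⟩, hz3⟩
        refine ⟨hz1, fun i => ?_⟩
        refine Fin.cases hz3 (fun i => ?_) i
        have h7 := hz2 i
        simp only [F', hz3, mul_zero, sub_zero] at h7
        exact (mul_eq_zero.1 h7).resolve_left hz
  have h8 := ih (D.erase d) S F' A' key
  rw [hfree'] at h8
  rw [hsub, ← h8]
  ring

theorem part (M : Meas K R) {ι : Type} [Fintype ι] [DecidableEq ι] (p : ℕ)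
    (ih : ∀ (D : Finset ι) (S : Set (Pt K ι)) (F : Fin p → Pt K ι → AlgebraicClosure K)
      (A : Fin p → ι → Pt K ι → AlgebraicClosure K), Hyp D p S F A →
      M.χ ι (S ∩ {z | ∀ i, F i z = 0}) * M.L ^ p = M.χ ι S)
    (D : Finset ι) (F : Fin (p + 1) → Pt K ι → AlgebraicClosure K)
    (A : Fin (p + 1) → ι → Pt K ι → AlgebraicClosure K) (E : Finset ι) (hE : E ⊆ D) :
    ∀ S : Set (Pt K ι), Hyp D (p + 1) S F A → (∀ z ∈ S, ∃ d ∈ E, A 0 d z ≠ 0) →
    M.χ ι (S ∩ {z | ∀ i, F i z = 0}) * M.L ^ (p + 1) = M.χ ι S := by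
  induction E using Finset.induction_on with
  | empty =>
    intro S _ h
    have : S = ∅ := by
      rw [Set.eq_empty_iff_forall_notMem]
      intro z hz
      obtain ⟨d, hd, -⟩ := h z hz
      exact absurd hd (Finset.notMem_empty _)
    rw [this, Set.empty_inter, chi_empty, zero_mul]
  | insert d E hd ihE =>
    intro S hS h
    have hE' : E ⊆ D := fun i hi => hE (Finset.mem_insert_of_mem hi)
    have hdD : d ∈ D := hE (Finset.mem_insert_self _ _)
    obtain ⟨hC, hF, hA, h1, h2⟩ := hS
    let S1 : Set (Pt K ι) := S ∩ {z | A 0 d z ≠ 0}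
    let S2 : Set (Pt K ι) := S ∩ {z | A 0 d z = 0}
    have hC1 : Constr S1 := hC.inter (Constr.ne (hA 0 d) IsPF.zero)
    have hC2 : Constr S2 := hC.inter (Constr.eqz (hA 0 d))
    have hS1 : Hyp D (p + 1) S1 F A := by
      refine ⟨hC1, hF, hA, fun z z' hz => ?_, fun z hz => h2 z hz.1⟩
      obtain ⟨h3, h4, h5⟩ := h1 z z' hz
      refine ⟨fun hzS => ⟨h3 hzS.1, ?_⟩, h4, h5⟩
      change A 0 d z' ≠ 0
      rw [h4]
      exact hzS.2
    have hS2 : Hyp D (p + 1) S2 F A := by
      refine ⟨hC2, hF, hA, fun z z' hz => ?_, fun z hz => h2 z hz.1⟩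
      obtain ⟨h3, h4, h5⟩ := h1 z z' hz
      refine ⟨fun hzS => ⟨h3 hzS.1, ?_⟩, h4, h5⟩
      change A 0 d z' = 0
      rw [h4]
      exact hzS.2
    have e1 := step M p ih D S1 F A hS1 d hdD fun z hz => hz.2
    have e2 := ihE hE' S2 hS2 (by
      intro z hz
      obtain ⟨d', hd', h6⟩ := h z hz.1
      rcases Finset.mem_insert.1 hd' with rfl | hd'
      · exact absurd hz.2 h6
      · exact ⟨d', hd', h6⟩)
    have hdisj : Disjoint S1 S2 := by
      rw [Set.disjoint_left]
      intro z hz hz'
      exact hz.2 hz'.2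
    have hun : S1 ∪ S2 = S := by
      ext z
      simp only [S1, S2, Set.mem_union, Set.mem_inter_iff, Set.mem_ofPred_eq]
      tauto
    have e3 := M.add S1 S2 hC1 hC2 hdisj
    have hCF : Constr {z : Pt K ι | ∀ i, F i z = 0} := Constr.all fun i => Constr.eqz (hF i)
    have e4 := M.add (S1 ∩ {z | ∀ i, F i z = 0}) (S2 ∩ {z | ∀ i, F i z = 0}) (hC1.inter hCF)
      (hC2.inter hCF) (hdisj.mono Set.inter_subset_left Set.inter_subset_left)
    rw [← Set.union_inter_distrib_right, hun] at e4
    rw [hun] at e3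
    rw [e4, e3, add_mul, e1, e2]

theorem lin' (M : Meas K R) {ι : Type} [Fintype ι] [DecidableEq ι] (p : ℕ) :
    ∀ (D : Finset ι) (S : Set (Pt K ι)) (F : Fin p → Pt K ι → AlgebraicClosure K)
      (A : Fin p → ι → Pt K ι → AlgebraicClosure K), Hyp D p S F A →
      M.χ ι (S ∩ {z | ∀ i, F i z = 0}) * M.L ^ p = M.χ ι S := by
  induction p with
  | zero =>
    intro D S F A _
    have : S ∩ {z : Pt K ι | ∀ i, F i z = 0} = S := by
      ext z
      simp
    rw [this, pow_zero, mul_one]
  | succ p ih =>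
    intro D S F A h
    refine part M p ih D F A D (Finset.Subset.refl _) S h fun z hz => ?_
    by_contra hcon
    push Not at hcon
    have h6 := h.2.2.2.2 z hz (Pi.single 0 1) (by
      intro d hd
      rw [Finset.sum_eq_single 0]
      · rw [Pi.single_eq_same, one_mul]
        exact hcon d hd
      · intro i _ hi
        rw [Pi.single_eq_of_ne hi, zero_mul]
      · intro h0
        exact absurd (Finset.mem_univ _) h0)
    have h7 := congrFun h6 0
    rw [Pi.single_eq_same, Pi.zero_apply] at h7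
    exact one_ne_zero h7

theorem lin : Pool.Agent.W425.IM.S_Lin := by
  intro K _ R _ M ι _ _ S D p F A hS hF hA h1 h2
  exact lin' M p D S F A ⟨hS, hF, hA, h1, h2⟩

end Pool.Agent.W428.IM
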